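import Pool.Agent.W969.MC.Avg2
import Pool.Agent.H630VC.Model

/-! The chain argument of `Pool/Agent/W969/MC/Avg2.lean`, for chains that are filled in order. -/

set_option linter.unusedSectionVars false
set_option linter.unusedVariables false

namespace Pool.Agent.T6.H87.TG

open Finset Pool.Agent.H560R2 Pool.Agent.W969.MC

section

variable {R α Ωn Ωp Inp : Type} [Fintype R] [Nonempty R] [Fintype Ωn] [Nonempty Ωn]
  [Fintype Ωp] [Nonempty Ωp]

/-- The family is filled up to `J` (exclusive). -/
def Filled {m' : ℕ} (Xn : Ωn → Set α) (J : Fin m') (y : Fin m' → Set α) : Prop :=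
  (∀ j, y j = ∅ ∨ ∃ ω, y j = Xn ω) ∧ ∀ j, J ≤ j → y j = ∅

open Classical in
/-- at some point of the chain few circuits change their bits -/
theorem rand_chain (C : R → RC Inp) {m' : ℕ} (E : (Fin m' → Set α) → Inp → Bool)
    (hmono : ∀ y y', (∀ j, y j ⊆ y' j) → E y ≤ E y') (Xn : Ωn → Set α) (η : ℝ) (hη : 0 ≤ η)
    (hfree : ∀ r, ((C r).free : ℝ) ≤ η * m') :
    ∃ (y : Fin m' → Set α) (J : Fin m'), Filled Xn J y ∧
      (∑ ω : Ωn, ((univ.filter fun r : R => (C r).chg (E (Function.update y J (Xn ω))) (E y)).card : ℝ))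
        ≤ Fintype.card Ωn * (η * Fintype.card R) := by
  by_contra hcon
  push Not at hcon
  have hRpos : (0 : ℝ) < Fintype.card R := by exact_mod_cast Fintype.card_pos
  have hstep : ∀ k : ℕ, k ≤ m' → ∃ y : Fin m' → Set α, (∀ j, y j = ∅ ∨ ∃ ω, y j = Xn ω) ∧
      (∀ j : Fin m', k ≤ j.val → y j = ∅) ∧
      η * Fintype.card R * k ≤ ∑ r : R, ((C r).pot (E y) : ℝ) := by
    intro k
    induction k with
    | zero =>
      intro _
      refine ⟨fun _ => ∅, fun j => Or.inl rfl, fun j _ => rfl, ?_⟩
      rw [Nat.cast_zero, mul_zero]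
      exact Finset.sum_nonneg (fun r _ => Nat.cast_nonneg _)
    | succ k ih =>
      intro hk
      obtain ⟨y, h1, h2, h3⟩ := ih (by omega)
      set J : Fin m' := ⟨k, hk⟩ with hJ
      have hyJ : y J = ∅ := h2 J le_rfl
      have h4 := hcon y J ⟨h1, fun j hj => h2 j hj⟩
      obtain ⟨ω, hω⟩ : ∃ ω : Ωn, η * Fintype.card R <
          ((univ.filter fun r : R => (C r).chg (E (Function.update y J (Xn ω))) (E y)).card : ℝ) := by
        by_contra hno
        push Not at hno
        have h5 := Finset.sum_le_sum (fun (ω : Ωn) (_ : ω ∈ univ) => hno ω)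
        rw [Finset.sum_const, nsmul_eq_mul, Finset.card_univ] at h5
        exact absurd (lt_of_lt_of_le h4 h5) (lt_irrefl _)
      refine ⟨Function.update y J (Xn ω), ?_, ?_, ?_⟩
      · intro j
        by_cases hj : j = J
        · subst hj
          rw [Function.update_self]
          exact Or.inr ⟨ω, rfl⟩
        · rw [Function.update_of_ne hj]
          exact h1 j
      · intro j hj
        have hjJ : j ≠ J := by
          rintro rfl
          have : (J : ℕ) = k := rfl
          omega
        rw [Function.update_of_ne hjJ]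
        exact h2 j (by omega)
      · have hle : E y ≤ E (Function.update y J (Xn ω)) := by
          apply hmono
          intro j
          by_cases hj : j = J
          · rw [hj, hyJ]
            exact Set.empty_subset _
          · rw [Function.update_of_ne hj]
        have h6 : ∀ r : R, ((C r).pot (E y) : ℝ) +
            (if (C r).chg (E (Function.update y J (Xn ω))) (E y) then (1 : ℝ) else 0) ≤
            ((C r).pot (E (Function.update y J (Xn ω))) : ℝ) := by
          intro r
          by_cases hc : (C r).chg (E (Function.update y J (Xn ω))) (E y)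
          · rw [if_pos hc]
            exact_mod_cast (C r).pot_chg hle hc
          · rw [if_neg hc, add_zero]
            exact_mod_cast (C r).pot_le hle
        have h7 := Finset.sum_le_sum (fun (r : R) (_ : r ∈ univ) => h6 r)
        rw [Finset.sum_add_distrib, Finset.sum_boole] at h7
        push_cast
        linarith
  obtain ⟨y, -, -, h3⟩ := hstep m' le_rfl
  have h4 : ∑ r : R, ((C r).pot (E y) : ℝ) < ∑ r : R, ((C r).free : ℝ) := by
    apply Finset.sum_lt_sum_of_nonempty Finset.univ_nonempty
    intro r _
    exact_mod_cast (C r).pot_lt (E y)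
  have h5 : ∑ r : R, ((C r).free : ℝ) ≤ Fintype.card R * (η * m') := by
    have := Finset.sum_le_sum (fun (r : R) (_ : r ∈ univ) => hfree r)
    rwa [Finset.sum_const, nsmul_eq_mul, Finset.card_univ] at this
  have h6 : (Fintype.card R : ℝ) * (η * m') = η * Fintype.card R * m' := by ring
  rw [h6] at h5
  exact absurd (lt_of_le_of_lt h3 (lt_of_lt_of_le h4 h5)) (lt_irrefl _)

/-- the randomised core -/
theorem rand_core (C : R → RC Inp) {m' : ℕ} (E : (Fin m' → Set α) → Inp → Bool)
    (hmono : ∀ y y', (∀ j, y j ⊆ y' j) → E y ≤ E y') (Xn : Ωn → Set α) (Xp : Ωp → Set α)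
    (A g : ℝ) (hg : 0 ≤ g)
    (hyes : ∀ (y : Fin m' → Set α) (J : Fin m') (p : Ωp), Filled Xn J y →
      (A + g) * Fintype.card R ≤ ({r : R | (C r).acc (E (Function.update y J (Xp p)))}.ncard : ℝ))
    (hno : ∀ y : Fin m' → Set α, (∀ j, y j = ∅ ∨ ∃ ω, y j = Xn ω) →
      ({r : R | (C r).acc (E y)}.ncard : ℝ) ≤ A * Fintype.card R)
    (hfree : ∀ r, ((C r).free : ℝ) ≤ (g / 2) * m') :
    ∃ (r : R) (y : Fin m' → Set α) (J : Fin m') (L : List ((Inp → Bool) → ℝ))
      (G : (Inp → Bool) → ℝ), Filled Xn J y ∧ RProg (RB Inp) L ∧ (G ∈ RB Inp ∨ G ∈ L) ∧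
      L.length ≤ (C r).size ∧
      ({ω : Ωn | (C r).τ ≤ G (E (Function.update y J (Xn ω)))}.ncard : ℝ) / Fintype.card Ωn +
          g / 2 ≤
        ({p : Ωp | (C r).τ ≤ G (E (Function.update y J (Xp p)))}.ncard : ℝ) /
          Fintype.card Ωp := by
  classical
  obtain ⟨y, J, hyf, hsum⟩ := rand_chain C E hmono Xn (g / 2) (by linarith) hfree
  have hy := hyf.1
  have hyJ : y J = ∅ := hyf.2 J le_rfl
  have hfl := fun r => flipR (C r).htop (C r).hmon (C r).hT (C r).hval (C r).o (C r).τ (E y)
  choose L G hL hlen hG hGx using hfl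
  have hle : ∀ X, E y ≤ E (Function.update y J X) := by
    intro X
    apply hmono
    intro j
    by_cases hj : j = J
    · rw [hj, hyJ]
      exact Set.empty_subset _
    · rw [Function.update_of_ne hj]
  have hRpos : (0 : ℝ) < Fintype.card R := by exact_mod_cast Fintype.card_pos
  have hnpos : (0 : ℝ) < Fintype.card Ωn := by exact_mod_cast Fintype.card_pos
  have hppos : (0 : ℝ) < Fintype.card Ωp := by exact_mod_cast Fintype.card_pos
  -- planted tests
  have h1 : Fintype.card Ωp * ((A + g) * Fintype.card R) ≤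
      ∑ r : R, ({p : Ωp | (C r).τ ≤ G r (E (Function.update y J (Xp p)))}.ncard : ℝ) := by
    rw [sum_swap]
    have h2 : ∀ p : Ωp, (A + g) * Fintype.card R ≤
        ({r : R | (C r).τ ≤ G r (E (Function.update y J (Xp p)))}.ncard : ℝ) := by
      intro p
      refine (hyes y J p hyf).trans ?_
      have : {r : R | (C r).acc (E (Function.update y J (Xp p)))} ⊆
          {r : R | (C r).τ ≤ G r (E (Function.update y J (Xp p)))} := by
        intro r hr
        exact (hGx r _ (hle _)).mpr (Or.inr hr)
      exact_mod_cast Set.ncard_le_ncard this (Set.toFinite _)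
    have h3 := Finset.sum_le_sum (fun (p : Ωp) (_ : p ∈ univ) => h2 p)
    rwa [Finset.sum_const, nsmul_eq_mul, Finset.card_univ] at h3
  -- random tests
  have h4 : ∑ r : R, ({ω : Ωn | (C r).τ ≤ G r (E (Function.update y J (Xn ω)))}.ncard : ℝ) ≤
      Fintype.card Ωn * ((A + g / 2) * Fintype.card R) := by
    rw [sum_swap]
    have h5 : ∀ ω : Ωn, ({r : R | (C r).τ ≤ G r (E (Function.update y J (Xn ω)))}.ncard : ℝ) ≤
        ((univ.filter fun r : R => (C r).chg (E (Function.update y J (Xn ω))) (E y)).card : ℝ) +
          A * Fintype.card R := by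
      intro ω
      have h6 : {r : R | (C r).τ ≤ G r (E (Function.update y J (Xn ω)))} ⊆
          {r : R | (C r).chg (E (Function.update y J (Xn ω))) (E y)} ∪
          {r : R | (C r).acc (E (Function.update y J (Xn ω)))} := by
        intro r hr
        exact (hGx r _ (hle _)).mp hr
      have h7 := (Set.ncard_le_ncard h6 (Set.toFinite _)).trans (Set.ncard_union_le _ _)
      have h8 : {r : R | (C r).chg (E (Function.update y J (Xn ω))) (E y)}.ncard =
          (univ.filter fun r : R => (C r).chg (E (Function.update y J (Xn ω))) (E y)).card := by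
        rw [Set.ncard_eq_toFinset_card']
        congr 1
        ext r
        simp
      rw [h8] at h7
      have h9 := hno (Function.update y J (Xn ω)) (by
        intro j
        by_cases hj : j = J
        · subst hj
          rw [Function.update_self]
          exact Or.inr ⟨ω, rfl⟩
        · rw [Function.update_of_ne hj]
          exact hy j)
      have h10 : ({r : R | (C r).τ ≤ G r (E (Function.update y J (Xn ω)))}.ncard : ℝ) ≤
        ((univ.filter fun r : R => (C r).chg (E (Function.update y J (Xn ω))) (E y)).card : ℝ) +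
          ({r : R | (C r).acc (E (Function.update y J (Xn ω)))}.ncard : ℝ) := by
        exact_mod_cast h7
      linarith
    have h11 := Finset.sum_le_sum (fun (ω : Ωn) (_ : ω ∈ univ) => h5 ω)
    rw [Finset.sum_add_distrib, Finset.sum_const, nsmul_eq_mul, Finset.card_univ] at h11
    refine h11.trans ?_
    have h12 : (Fintype.card Ωn : ℝ) * ((A + g / 2) * Fintype.card R) =
        Fintype.card Ωn * (g / 2 * Fintype.card R) + Fintype.card Ωn * (A * Fintype.card R) := by
      ring
    rw [h12]
    exact add_le_add hsum le_rfl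
  -- one circuit
  have h13 : ∃ r : R, ({ω : Ωn | (C r).τ ≤ G r (E (Function.update y J (Xn ω)))}.ncard : ℝ) /
      Fintype.card Ωn + g / 2 ≤
        ({p : Ωp | (C r).τ ≤ G r (E (Function.update y J (Xp p)))}.ncard : ℝ) /
          Fintype.card Ωp := by
    by_contra hcon
    push Not at hcon
    have h14 := Finset.sum_lt_sum_of_nonempty (s := (univ : Finset R)) Finset.univ_nonempty
      (fun r _ => hcon r)
    rw [Finset.sum_add_distrib, Finset.sum_const, nsmul_eq_mul, Finset.card_univ,
      ← Finset.sum_div, ← Finset.sum_div] at h14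
    have h15 : (A + g) * Fintype.card R ≤
        (∑ r : R, ({p : Ωp | (C r).τ ≤ G r (E (Function.update y J (Xp p)))}.ncard : ℝ)) /
          Fintype.card Ωp := by
      rw [le_div_iff₀ hppos, mul_comm]
      exact h1
    have h16 : (∑ r : R, ({ω : Ωn | (C r).τ ≤ G r (E (Function.update y J (Xn ω)))}.ncard : ℝ)) /
        Fintype.card Ωn ≤ (A + g / 2) * Fintype.card R := by
      rw [div_le_iff₀ hnpos, mul_comm]
      exact h4
    have h17 : (A + g / 2) * (Fintype.card R : ℝ) + Fintype.card R * (g / 2) =
      (A + g) * Fintype.card R := by ring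
    linarith
  obtain ⟨r, hr⟩ := h13
  exact ⟨r, y, J, L r, G r, hyf, hL r, hG r, hlen r, hr⟩

end

open H630VC (Prog Mono2)

/-- Programs with gates with at most two inputs as lists of binary gates and input gates. -/
theorem prog_of_rprog {Inp : Type} {L : List ((Inp → Bool) → ℝ)} (hL : RProg (RB Inp) L) :
    ∃ l, Prog (RB Inp) l ∧ (∀ f ∈ L, f ∈ l) ∧ l.length ≤ 3 * L.length := by
  induction hL with
  | nil => exact ⟨[], Prog.nil, fun f hf => hf, le_rfl⟩
  | @gate L w hw φ hφ f hL hf ih =>
    obtain ⟨l, h1, h2, h3⟩ := ih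
    have key : ∀ g : (Inp → Bool) → ℝ, (g ∈ RB Inp ∨ g ∈ L) → ∀ l' : List ((Inp → Bool) → ℝ),
        Prog (RB Inp) l' → (∀ f ∈ l, f ∈ l') → ∃ l'', Prog (RB Inp) l'' ∧ (∀ f ∈ l', f ∈ l'') ∧
          g ∈ l'' ∧ l''.length ≤ l'.length + 1 := by
      intro g hg l' hl' hsub
      rcases hg with hg | hg
      · exact ⟨g :: l', Prog.input hl' hg, fun f hf => List.mem_cons_of_mem _ hf,
          List.mem_cons_self, by simp⟩
      · exact ⟨l', hl', fun f hf => hf, hsub g (h2 g hg), by omega⟩
    match w, hw, φ, hφ, f, hf with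
    | 0, _, φ, hφ, f, hf =>
      refine ⟨(fun x => φ (fun j => f j x)) :: l, Prog.input h1 (Or.inl ⟨φ (fun j => j.elim0), ?_⟩),
        ?_, ?_⟩
      · funext x
        congr 1
        funext j
        exact j.elim0
      · intro g hg
        rcases List.mem_cons.1 hg with rfl | hg
        · exact List.mem_cons_self
        · exact List.mem_cons_of_mem _ (h2 g hg)
      · simp only [List.length_cons]
        omega
    | 1, _, φ, hφ, f, hf =>
      obtain ⟨l1, a1, a2, a3, a4⟩ := key (f 0) (hf 0) l h1 (fun f hf => hf)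
      refine ⟨(fun x => φ (fun _ => f 0 x)) :: l1,
        Prog.gate (φ := fun a _ => φ (fun _ => a)) a1 ?_ a3 a3, ?_, ?_⟩
      · intro a a' b b' ha _
        exact hφ (fun _ => ha)
      · intro g hg
        rcases List.mem_cons.1 hg with rfl | hg
        · refine List.mem_cons.2 (Or.inl ?_)
          funext x
          congr 1
          funext j
          rw [Subsingleton.elim j 0]
        · exact List.mem_cons_of_mem _ (a2 g (h2 g hg))
      · simp only [List.length_cons]
        omega
    | 2, _, φ, hφ, f, hf =>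
      obtain ⟨l1, a1, a2, a3, a4⟩ := key (f 0) (hf 0) l h1 (fun f hf => hf)
      obtain ⟨l2, b1, b2, b3, b4⟩ := key (f 1) (hf 1) l1 a1 a2
      refine ⟨(fun x => φ ![f 0 x, f 1 x]) :: l2,
        Prog.gate (φ := fun a b => φ ![a, b]) b1 ?_ (b2 _ a3) b3, ?_, ?_⟩
      · intro a a' b b' ha hb
        apply hφ
        intro j
        fin_cases j
        · exact ha
        · exact hb
      · intro g hg
        rcases List.mem_cons.1 hg with rfl | hg
        · refine List.mem_cons.2 (Or.inl ?_)
          funext x
          congr 1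
          funext j
          fin_cases j <;> rfl
        · exact List.mem_cons_of_mem _ (b2 _ (a2 g (h2 g hg)))
      · simp only [List.length_cons]
        omega
    | w + 3, hw, _, _, _, _ => omega

end Pool.Agent.T6.H87.TG
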