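import Mathlib

/-!
# 2-to-1 games given by bits, and circuits with free gates: definitions
-/

set_option autoImplicit false

namespace Pool.Agent.T6.H87.TG

open Finset

/-- A position `(u, v, π)`: an edge from `u` to `v` with the constraint that `π` maps the label of `u`
to the label of `v`. -/
abbrev Position (N q : ℕ) : Type := Fin N × Fin N × (Fin q → Fin q)

/-- The game whose edges are the positions `e` with `x e = true` is a 2-to-1 game: there is at least
one edge, at most one edge for each pair of vertices, and the fibers of the constraints of the edges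
have at most two elements. -/
def TwoToOne {N q : ℕ} (x : Position N q → Bool) : Prop :=
  (∃ e, x e = true) ∧
  (∀ e e', x e = true → x e' = true → e.1 = e'.1 → e.2.1 = e'.2.1 → e = e') ∧
  ∀ e, x e = true → ∀ b, (univ.filter fun a => e.2.2 a = b).card ≤ 2

/-- The labeling satisfies the edge. -/
def Satisfies {N q : ℕ} (A B : Fin N → Fin q) (e : Position N q) : Prop :=
  e.2.2 (A e.1) = B e.2.1

/-- 2-to-1 games of value one: some labeling satisfies all edges. -/
def ValueOne {N q : ℕ} (x : Position N q → Bool) : Prop :=
  TwoToOne x ∧ ∃ A B : Fin N → Fin q, ∀ e, x e = true → Satisfies A B e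

open Classical in
/-- 2-to-1 games of value at most `δ`: every labeling satisfies at most the fraction `δ` of the
edges. -/
def ValueAtMost {N q : ℕ} (δ : ℝ) (x : Position N q → Bool) : Prop :=
  TwoToOne x ∧ ∀ A B : Fin N → Fin q,
    ((univ.filter fun e => x e = true ∧ Satisfies A B e).card : ℝ) ≤
      δ * (univ.filter fun e => x e = true).card

/-- A circuit with the gates `0, …, s - 1`, whose inputs are the bits of the positions `e` in `E`. Gate
`i` has the `w i` inputs `a i j`, each a bit (`0` or `1`) or an earlier gate, and computes the function
`op i` of real numbers; its value on `x` is `val x i`. The gates which are not in `free` have at most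
two inputs and compute nondecreasing functions. A gate in `free` computes an arbitrary function of the
bits which tell whether its input `j` is at least `θ i j`. The circuit accepts `x` if the value of
gate `out` is at least `τ`. -/
structure Circuit (E : Type) where
  s : ℕ
  free : Finset (Fin s)
  w : Fin s → ℕ
  a : (i : Fin s) → Fin (w i) → E ⊕ Fin s
  op : (i : Fin s) → (Fin (w i) → ℝ) → ℝ
  θ : (i : Fin s) → Fin (w i) → ℝ
  val : (E → Bool) → Fin s → ℝ
  out : Fin s
  τ : ℝ
  earlier : ∀ i j m, a i j = Sum.inr m → m < i
  mono : ∀ i, i ∉ free → w i ≤ 2 ∧ Monotone (op i)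
  digital : ∀ i ∈ free, ∀ z z' : Fin (w i) → ℝ, (∀ j, θ i j ≤ z j ↔ θ i j ≤ z' j) →
    op i z = op i z'
  spec : ∀ x i, val x i = op i (fun j =>
    Sum.elim (fun p => if x p = true then (1 : ℝ) else 0) (val x) (a i j))

/-- The number of gates plus the number of wires into free gates. -/
def Circuit.size {E : Type} (C : Circuit E) : ℕ := C.s + ∑ i ∈ C.free, C.w i

/-- The product of the numbers `w i + 1` over all free gates. -/
def Circuit.freedom {E : Type} (C : Circuit E) : ℕ := ∏ i ∈ C.free, (C.w i + 1)

/-- The circuit accepts `x`. -/
def Circuit.Accepts {E : Type} (C : Circuit E) (x : E → Bool) : Prop := C.τ ≤ C.val x C.out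

/-- The probability that `x` is accepted by a circuit that is chosen uniformly at random from the
family `C`. -/
noncomputable def acceptance {E R : Type} (C : R → Circuit E) (x : E → Bool) : ℝ :=
  (Nat.card {ρ : R // (C ρ).Accepts x} : ℝ) / Nat.card R

end Pool.Agent.T6.H87.TG
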