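import Pool.Agent.H589R3.DT.Asm
import Pool.Agent.H560R2.Real3
import Pool.Agent.T6.H87.TG.Defs

/-! Disjoint unions of blow-ups of hosts. -/

set_option autoImplicit false
set_option linter.unusedSectionVars false

open scoped Classical
open Finset

namespace Pool.Agent.T6.H87.TG

open H589DT Pool.Agent.H560R2

variable {n D p m N m' : ℕ} [NeZero p]

/-- the vertices of the blow-ups, and one more vertex -/
abbrev Vx (n m : ℕ) {m' : ℕ} (M : Fin m' → ℕ) : Type := Option (Σ j : Fin m', Fin n × Fin m × Fin (M j))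

/-- the edges of the blow-ups, and one more edge -/
abbrev Ed {n : ℕ} (D : ℕ) (B : Finset (Fin n)) (m : ℕ) {m' : ℕ} (M : Fin m' → ℕ) : Type :=
  Option (Σ j : Fin m', (EE D B × Fin m × Fin m) × Fin (M j) × Fin (M j))

/-- the constraints -/
noncomputable def cmT (p : ℕ) [NeZero p] (i s : ZMod p) : Fin (2 * p) → Fin (2 * p) :=
  fun a => Fin.castLE (by omega) (cmap p 2 i s a)

theorem cmT_fib (i s : ZMod p) (b : Fin (2 * p)) : (univ.filter fun a => cmT p i s a = b).card ≤ 2 := by
  by_cases hb : (b : ℕ) < p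
  · refine le_trans (card_le_card ?_) (cmap_fib (d := 2) i s (⟨b, hb⟩ : Fin p))
    intro a ha
    have h1 := (mem_filter.1 ha).2
    refine mem_filter.2 ⟨mem_univ _, ?_⟩
    apply Fin.ext
    have h2 := congrArg Fin.val h1
    simpa [cmT] using h2
  · have : (univ.filter fun a => cmT p i s a = b) = ∅ := by
      apply filter_eq_empty_iff.2
      intro a _ ha
      have h2 := congrArg Fin.val ha
      simp only [cmT, Fin.val_castLE] at h2
      exact hb (h2 ▸ (cmap p 2 i s a).2)
    rw [this]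
    simp

variable (φ : Fin n → Fin D → Fin n) (B : Finset (Fin n)) (s : Fin n → Fin D → ZMod p)
  (M : Fin m' → ℕ) (ι : Vx n m M ↪ Fin N)

/-- the position of an edge -/
noncomputable def posOf : Ed D B m M → Position N (2 * p)
  | none => (ι none, ι none, cmT p 0 0)
  | some ⟨j, c, t, t'⟩ => (ι (some ⟨j, c.1.1.1, c.2.2, t'⟩),
      ι (some ⟨j, φ c.1.1.1 c.1.1.2, c.2.1, t⟩),
      cmT p ((c.1.1.2 : ℕ) : ZMod p) (s c.1.1.1 c.1.1.2))

/-- the edges which are present -/
def Pres (y : Fin m' → Set (EE D B × Fin m × Fin m)) : Ed D B m M → Prop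
  | none => True
  | some ⟨j, c, _⟩ => c ∈ y j

/-- the union of the blow-ups -/
noncomputable def inst (y : Fin m' → Set (EE D B × Fin m × Fin m)) : Position N (2 * p) → Bool :=
  fun e => decide (∃ o, Pres B M y o ∧ posOf φ B s M ι o = e)

variable {φ B s M ι}

theorem inst_iff {y : Fin m' → Set (EE D B × Fin m × Fin m)} {e : Position N (2 * p)} :
    inst φ B s M ι y e = true ↔ ∃ o, Pres B M y o ∧ posOf φ B s M ι o = e := by
  unfold inst
  rw [decide_eq_true_iff]

theorem inst_mono (y y' : Fin m' → Set (EE D B × Fin m × Fin m)) (h : ∀ j, y j ⊆ y' j) :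
    inst φ B s M ι y ≤ inst φ B s M ι y' := by
  intro e
  by_cases h1 : inst φ B s M ι y e = true
  · obtain ⟨o, ho, he⟩ := inst_iff.1 h1
    have : inst φ B s M ι y' e = true := by
      refine inst_iff.2 ⟨o, ?_, he⟩
      rcases o with _ | ⟨j, c, t⟩
      · trivial
      · exact h j ho
    rw [this]
    exact le_top
  · rw [Bool.not_eq_true] at h1
    rw [h1]
    exact bot_le

theorem pair_inj (hφ : ∀ w i j, w ∉ B → φ w i = φ w j → i = j) {o o' : Ed D B m M}
    (h1 : (posOf φ B s M ι o).1 = (posOf φ B s M ι o').1)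
    (h2 : (posOf φ B s M ι o).2.1 = (posOf φ B s M ι o').2.1) : o = o' := by
  rcases o with _ | ⟨j, ⟨⟨⟨w1, i1⟩, hw1⟩, a1, b1⟩, t1, u1⟩ <;>
    rcases o' with _ | ⟨j', ⟨⟨⟨w2, i2⟩, hw2⟩, a2, b2⟩, t2, u2⟩
  · rfl
  · have := ι.injective h1
    simp at this
  · have := ι.injective h1
    simp at this
  · have e1 := Option.some.inj (ι.injective h1)
    have e2 := Option.some.inj (ι.injective h2)
    rw [Sigma.mk.injEq] at e1 e2
    obtain ⟨rfl, e1⟩ := e1
    obtain ⟨-, e2⟩ := e2
    have e1 := eq_of_heq e1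
    have e2 := eq_of_heq e2
    have e3 : w1 = w2 := congrArg (fun z => z.1) e1
    have e4 : b1 = b2 := congrArg (fun z => z.2.1) e1
    have e5 : u1 = u2 := congrArg (fun z => z.2.2) e1
    have e6 : φ w1 i1 = φ w2 i2 := congrArg (fun z => z.1) e2
    have e7 : a1 = a2 := congrArg (fun z => z.2.1) e2
    have e8 : t1 = t2 := congrArg (fun z => z.2.2) e2
    subst e3 e4 e5 e7 e8
    have e9 := hφ w1 i1 i2 hw1 e6
    subst e9
    rfl

theorem posOf_inj (hφ : ∀ w i j, w ∉ B → φ w i = φ w j → i = j) :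
    Function.Injective (posOf φ B s M ι) := fun o o' h => pair_inj hφ (by rw [h]) (by rw [h])

theorem inst_two (hφ : ∀ w i j, w ∉ B → φ w i = φ w j → i = j)
    (y : Fin m' → Set (EE D B × Fin m × Fin m)) : TwoToOne (inst φ B s M ι y) := by
  refine ⟨⟨posOf φ B s M ι none, inst_iff.2 ⟨none, trivial, rfl⟩⟩, ?_, ?_⟩
  · intro e e' h h' h1 h2
    obtain ⟨o, -, rfl⟩ := inst_iff.1 h
    obtain ⟨o', -, rfl⟩ := inst_iff.1 h'
    rw [pair_inj hφ h1 h2]
  · intro e h b
    obtain ⟨o, -, rfl⟩ := inst_iff.1 h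
    rcases o with _ | ⟨j, c, t, t'⟩
    · exact cmT_fib _ _ _
    · exact cmT_fib _ _ _

/-- unions of blow-ups of hosts without conflicts have value one -/
theorem inst_yes (hφ : ∀ w i j, w ∉ B → φ w i = φ w j → i = j)
    (y : Fin m' → Set (EE D B × Fin m × Fin m))
    (T : Fin m' → Finset (((Fin n ⊕ Fin n) × Fin m) × (ZMod p × Fin 2)))
    (hT0 : ∀ j, NoConflict (T j))
    (hy : ∀ j, ∀ c ∈ y j, c ∈ hT (gameGraph φ B s) (T j)) :
    ValueOne (inst φ B s M ι y) := by
  refine ⟨inst_two hφ y, ?_⟩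
  let gV : Vx n m M → Fin (2 * p) := fun o => match o with
    | none => Fin.castLE (by omega) (eV p 0)
    | some ⟨j, v, a, _⟩ => Fin.castLE (by omega) (eV p (labOf (T j) 0 (Sum.inl v, a)).1)
  let gW : Vx n m M → Fin (2 * p) := fun o => match o with
    | none => eW p 2 0
    | some ⟨j, w, b, _⟩ => eW p 2 (labOf (T j) 0 (Sum.inr w, b))
  refine ⟨Function.extend ι gW fun _ => eW p 2 0, Function.extend ι gV fun _ => eW p 2 0, ?_⟩
  intro e he
  obtain ⟨o, ho, rfl⟩ := inst_iff.1 he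
  rcases o with _ | ⟨j, c, t, t'⟩
  · show cmT p 0 0 (Function.extend ι gW _ (ι none)) = Function.extend ι gV _ (ι none)
    rw [ι.injective.extend_apply, ι.injective.extend_apply]
    show Fin.castLE _ (cmap p 2 0 0 (eW p 2 0)) = Fin.castLE _ (eV p 0)
    congr 1
    simp [cmap]
  · show cmT p _ _ (Function.extend ι gW _ (ι (some ⟨j, c.1.1.1, c.2.2, t'⟩))) =
      Function.extend ι gV _ (ι (some ⟨j, φ c.1.1.1 c.1.1.2, c.2.1, t⟩))
    rw [ι.injective.extend_apply, ι.injective.extend_apply]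
    obtain ⟨σ, τ, h1, h2, h3⟩ := mem_hT.1 (hy j c ho)
    have e1 : labOf (T j) 0 (Sum.inl (φ c.1.1.1 c.1.1.2), c.2.1) = σ := labOf_eq (hT0 j) h1
    have e2 : labOf (T j) 0 (Sum.inr c.1.1.1, c.2.2) = τ := labOf_eq (hT0 j) h2
    show Fin.castLE _ (cmap p 2 _ _ (eW p 2 (labOf (T j) 0 (Sum.inr c.1.1.1, c.2.2)))) =
      Fin.castLE _ (eV p (labOf (T j) 0 (Sum.inl (φ c.1.1.1 c.1.1.2), c.2.1)).1)
    rw [e1, e2]
    congr 1
    unfold cmap
    rw [Equiv.symm_apply_apply]
    congr 1

/-- the inputs are host inputs -/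
theorem inst_host (hφ : ∀ w i j, w ∉ B → φ w i = φ w j → i = j)
    (y : Fin m' → Set (EE D B × Fin m × Fin m)) (J : Fin m') :
    HostInputs (fun H : Finset (EE D B × Fin m × Fin m) =>
      inst φ B s M ι (Function.update y J (H : Set (EE D B × Fin m × Fin m))))
      (RB (Position N (2 * p))) := by
  rintro g (⟨c, rfl⟩ | ⟨e, rfl⟩)
  · exact Or.inl ⟨c, fun _ => rfl⟩
  · by_cases he : ∃ o, posOf φ B s M ι o = e
    · obtain ⟨o, rfl⟩ := he
      have key : ∀ y', inst φ B s M ι y' (posOf φ B s M ι o) = true ↔ Pres B M y' o := by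
        intro y'
        constructor
        · intro h
          obtain ⟨o', ho', h'⟩ := inst_iff.1 h
          rwa [← posOf_inj hφ h']
        · intro h
          exact inst_iff.2 ⟨o, h, rfl⟩
      rcases o with _ | ⟨j, c, t, t'⟩
      · left
        refine ⟨1, fun H => ?_⟩
        exact if_pos ((key _).2 trivial)
      · by_cases hj : j = J
        · subst hj
          right
          refine ⟨c, fun H => ?_⟩
          have h1 : Pres B M (Function.update y j (H : Set (EE D B × Fin m × Fin m)))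
              (some ⟨j, c, t, t'⟩) ↔ c ∈ H := by
            show c ∈ Function.update y j (H : Set (EE D B × Fin m × Fin m)) j ↔ _
            rw [Function.update_self]
            exact Finset.mem_coe
          by_cases h : c ∈ H
          · rw [if_pos h]
            exact if_pos ((key _).2 (h1.2 h))
          · rw [if_neg h]
            exact if_neg fun h' => h (h1.1 ((key _).1 h'))
        · left
          refine ⟨if c ∈ y j then 1 else 0, fun H => ?_⟩
          have h1 : Pres B M (Function.update y J (H : Set (EE D B × Fin m × Fin m)))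
              (some ⟨j, c, t, t'⟩) ↔ c ∈ y j := by
            show c ∈ Function.update y J (H : Set (EE D B × Fin m × Fin m)) j ↔ _
            rw [Function.update_of_ne hj]
          by_cases h : c ∈ y j
          · rw [if_pos h]
            exact if_pos ((key _).2 (h1.2 h))
          · rw [if_neg h]
            exact if_neg fun h' => h (h1.1 ((key _).1 h'))
    · left
      refine ⟨0, fun H => ?_⟩
      refine if_neg fun h => he ?_
      obtain ⟨o, -, h'⟩ := inst_iff.1 h
      exact ⟨o, h'⟩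

/-- The number of edges that a labeling satisfies, if all blow-ups after `J` are empty and the one at
`J` is a copy of the game graph. -/
theorem inst_sat_le (K : ℕ)
    (hs : ∀ (x : Fin n → ZMod p × Fin 2) (y : Fin n → ZMod p),
      (univ.filter fun e : Fin n × Fin D => e.1 ∉ B ∧
        (x e.1).1 - ((e.2 : ℕ) : ZMod p) * (((x e.1).2 : ℕ) : ZMod p) + s e.1 e.2
          = y (φ e.1 e.2)).card < K)
    (y : Fin m' → Set (EE D B × Fin m × Fin m)) (J : Fin m') (hyJ : ∀ j, J < j → y j = ∅)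
    (x : Fin n ⊕ Fin n → Fin m) (hx' : y J = (hx (gameGraph (d := 2) φ B s) x : Set _))
    (A C : Fin N → Fin (2 * p)) :
    (univ.filter fun e => inst φ B s M ι y e = true ∧ Satisfies A C e).card ≤
      1 + (∑ j ∈ univ.filter (fun j => j < J), Fintype.card (EE D B) * m ^ 2 * M j ^ 2) +
        K * M J ^ 2 := by
  -- the satisfied edges of the big copy
  let SJ : Finset (EE D B × Fin (M J) × Fin (M J)) := univ.filter fun z =>
    Satisfies A C (posOf φ B s M ι (some ⟨J, (z.1, x (Sum.inl (φ z.1.1.1 z.1.1.2)),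
      x (Sum.inr z.1.1.1)), z.2.1, z.2.2⟩))
  have hSJ : SJ.card ≤ K * M J ^ 2 := by
    have h1 : SJ.card = ∑ tt : Fin (M J) × Fin (M J),
        (univ.filter fun e : EE D B => (e, tt) ∈ SJ).card := by
      rw [Finset.card_eq_sum_card_fiberwise (f := fun z : EE D B × Fin (M J) × Fin (M J) => z.2)
        (t := univ) (fun _ _ => mem_coe.2 (mem_univ _))]
      refine sum_congr rfl fun tt _ => ?_
      refine card_bij (fun z _ => z.1) ?_ ?_ ?_
      · intro z hz
        obtain ⟨hz1, hz2⟩ := mem_filter.1 hz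
        refine mem_filter.2 ⟨mem_univ _, ?_⟩
        rw [← hz2]
        exact hz1
      · intro z hz z' hz' h
        obtain ⟨_, hz2⟩ := mem_filter.1 hz
        obtain ⟨_, hz2'⟩ := mem_filter.1 hz'
        exact Prod.ext h (hz2.trans hz2'.symm)
      · intro e he
        exact ⟨(e, tt), mem_filter.2 ⟨(mem_filter.1 he).2, rfl⟩, rfl⟩
    rw [h1]
    have h2 : ∀ tt : Fin (M J) × Fin (M J),
        (univ.filter fun e : EE D B => (e, tt) ∈ SJ).card ≤ K := by
      rintro ⟨t, t'⟩
      let xx : Fin n → ZMod p × Fin 2 := fun w =>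
        (eW p 2).symm (A (ι (some ⟨J, w, x (Sum.inr w), t'⟩)))
      let yy : Fin n → ZMod p := fun v =>
        if h : ((C (ι (some ⟨J, v, x (Sum.inl v), t⟩))) : ℕ) < p then
          (eV p).symm ⟨C (ι (some ⟨J, v, x (Sum.inl v), t⟩)), h⟩ else 0
      refine le_trans ?_ (hs xx yy).le
      refine card_le_card_of_injOn Subtype.val ?_ Subtype.val_injective.injOn
      intro e he
      have h3 := (mem_filter.1 (mem_filter.1 (mem_coe.1 he)).2).2
      refine mem_coe.2 (mem_filter.2 ⟨mem_univ _, e.2, ?_⟩)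
      have h4 : Fin.castLE (by omega : p ≤ 2 * p) (cmap p 2 ((e.1.2 : ℕ) : ZMod p) (s e.1.1 e.1.2)
          (A (ι (some ⟨J, e.1.1, x (Sum.inr e.1.1), t'⟩)))) =
          C (ι (some ⟨J, φ e.1.1 e.1.2, x (Sum.inl (φ e.1.1 e.1.2)), t⟩)) := h3
      have h5 := congrArg Fin.val h4
      rw [Fin.val_castLE] at h5
      have h6 : ((C (ι (some ⟨J, φ e.1.1 e.1.2, x (Sum.inl (φ e.1.1 e.1.2)), t⟩))) : ℕ) < p := by
        rw [← h5]
        exact (cmap p 2 _ _ _).2
      show (xx e.1.1).1 - _ * _ + _ = yy (φ e.1.1 e.1.2)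
      show _ = if h : ((C (ι (some ⟨J, φ e.1.1 e.1.2, x (Sum.inl (φ e.1.1 e.1.2)), t⟩))) : ℕ) < p
        then (eV p).symm ⟨C (ι (some ⟨J, φ e.1.1 e.1.2, x (Sum.inl (φ e.1.1 e.1.2)), t⟩)), h⟩ else 0
      rw [dif_pos h6]
      have h7 : (⟨C (ι (some ⟨J, φ e.1.1 e.1.2, x (Sum.inl (φ e.1.1 e.1.2)), t⟩)), h6⟩ : Fin p) =
          cmap p 2 ((e.1.2 : ℕ) : ZMod p) (s e.1.1 e.1.2)
            (A (ι (some ⟨J, e.1.1, x (Sum.inr e.1.1), t'⟩))) := Fin.ext h5.symm
      rw [h7]
      unfold cmap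
      rw [Equiv.symm_apply_apply]
    refine (sum_le_sum fun tt _ => h2 tt).trans ?_
    rw [sum_const, card_univ, Fintype.card_prod, Fintype.card_fin, smul_eq_mul]
    exact le_of_eq (by ring)
  -- the edges
  let Oth : Finset (Ed D B m M) := (univ.filter (fun j => j < J)).biUnion fun j =>
    (univ : Finset ((EE D B × Fin m × Fin m) × Fin (M j) × Fin (M j))).image
      fun z => (some ⟨j, z⟩ : Ed D B m M)
  have hOth : Oth.card ≤ ∑ j ∈ univ.filter (fun j => j < J),
      Fintype.card (EE D B) * m ^ 2 * M j ^ 2 := by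
    refine card_biUnion_le.trans (sum_le_sum fun j _ => ?_)
    refine card_image_le.trans (le_of_eq ?_)
    rw [card_univ]
    simp only [Fintype.card_prod, Fintype.card_fin]
    ring
  have hsub : (univ.filter fun e => inst φ B s M ι y e = true ∧ Satisfies A C e) ⊆
      insert (posOf φ B s M ι none) (Oth.image (posOf φ B s M ι) ∪ SJ.image fun z =>
        posOf φ B s M ι (some ⟨J, (z.1, x (Sum.inl (φ z.1.1.1 z.1.1.2)),
          x (Sum.inr z.1.1.1)), z.2.1, z.2.2⟩)) := by
    intro e he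
    obtain ⟨h1, h2⟩ := (mem_filter.1 he).2
    obtain ⟨o, ho, rfl⟩ := inst_iff.1 h1
    rcases o with _ | ⟨j, c, t, t'⟩
    · exact mem_insert_self _ _
    · refine mem_insert_of_mem (mem_union.2 ?_)
      rcases lt_trichotomy j J with hj | hj | hj
      · left
        refine mem_image.2 ⟨some ⟨j, c, t, t'⟩, ?_, rfl⟩
        exact mem_biUnion.2 ⟨j, mem_filter.2 ⟨mem_univ _, hj⟩, mem_image.2 ⟨_, mem_univ _, rfl⟩⟩
      · right
        subst hj
        have h3 : c ∈ hx (gameGraph (d := 2) φ B s) x := by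
          have h4 : c ∈ y j := ho
          rw [hx'] at h4
          exact h4
        obtain ⟨h5, h6⟩ := mem_hx.1 h3
        have h7 : c = (c.1, x (Sum.inl (φ c.1.1.1 c.1.1.2)), x (Sum.inr c.1.1.1)) :=
          Prod.ext rfl (Prod.ext h5 h6)
        refine mem_image.2 ⟨(c.1, t, t'), mem_filter.2 ⟨mem_univ _, ?_⟩, ?_⟩
        · show Satisfies A C (posOf φ B s M ι (some ⟨j, (c.1, x (Sum.inl (φ c.1.1.1 c.1.1.2)),
            x (Sum.inr c.1.1.1)), t, t'⟩))
          rw [← h7]
          exact h2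
        · show posOf φ B s M ι (some ⟨j, (c.1, x (Sum.inl (φ c.1.1.1 c.1.1.2)),
            x (Sum.inr c.1.1.1)), t, t'⟩) = _
          rw [← h7]
      · exfalso
        have h4 : c ∈ y j := ho
        rw [hyJ j hj] at h4
        exact h4
  refine (card_le_card hsub).trans ((card_insert_le _ _).trans ?_)
  have h8 : (Oth.image (posOf φ B s M ι) ∪ SJ.image fun z =>
        posOf φ B s M ι (some ⟨J, (z.1, x (Sum.inl (φ z.1.1.1 z.1.1.2)),
          x (Sum.inr z.1.1.1)), z.2.1, z.2.2⟩)).card ≤ Oth.card + SJ.card :=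
    (card_union_le _ _).trans (Nat.add_le_add card_image_le card_image_le)
  omega

/-- The number of edges. -/
theorem inst_edges_ge (hφ : ∀ w i j, w ∉ B → φ w i = φ w j → i = j)
    (y : Fin m' → Set (EE D B × Fin m × Fin m)) (J : Fin m')
    (x : Fin n ⊕ Fin n → Fin m) (hx' : y J = (hx (gameGraph (d := 2) φ B s) x : Set _)) :
    Fintype.card (EE D B) * M J ^ 2 ≤ (univ.filter fun e => inst φ B s M ι y e = true).card := by
  have h1 : Fintype.card (EE D B) * M J ^ 2 =
      (univ : Finset (EE D B × Fin (M J) × Fin (M J))).card := by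
    rw [card_univ, Fintype.card_prod, Fintype.card_prod, Fintype.card_fin, sq]
  rw [h1]
  refine card_le_card_of_injOn (fun z => posOf φ B s M ι (some ⟨J,
    (z.1, x (Sum.inl (φ z.1.1.1 z.1.1.2)), x (Sum.inr z.1.1.1)), z.2.1, z.2.2⟩)) ?_ ?_
  · intro z _
    refine mem_coe.2 (mem_filter.2 ⟨mem_univ _, inst_iff.2 ⟨_, ?_, rfl⟩⟩)
    show _ ∈ y J
    rw [hx']
    exact mem_coe.2 (mem_hx.2 ⟨rfl, rfl⟩)
  · intro z _ z' _ h
    have h2 := posOf_inj hφ h
    have h3 := Option.some.inj h2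
    rw [Sigma.mk.injEq] at h3
    have h4 := eq_of_heq h3.2
    simp only [Prod.mk.injEq] at h4
    exact Prod.ext h4.1.1 (Prod.ext h4.2.1 h4.2.2)

/-- small value -/
theorem inst_no (hφ : ∀ w i j, w ∉ B → φ w i = φ w j → i = j) (K : ℕ)
    (hs : ∀ (x : Fin n → ZMod p × Fin 2) (y : Fin n → ZMod p),
      (univ.filter fun e : Fin n × Fin D => e.1 ∉ B ∧
        (x e.1).1 - ((e.2 : ℕ) : ZMod p) * (((x e.1).2 : ℕ) : ZMod p) + s e.1 e.2
          = y (φ e.1 e.2)).card < K) (δ : ℝ) (hδ : 0 ≤ δ)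
    (y : Fin m' → Set (EE D B × Fin m × Fin m)) (J : Fin m') (hyJ : ∀ j, J < j → y j = ∅)
    (x : Fin n ⊕ Fin n → Fin m) (hx' : y J = (hx (gameGraph (d := 2) φ B s) x : Set _))
    (hnum : ((1 + (∑ j ∈ univ.filter (fun j => j < J), Fintype.card (EE D B) * m ^ 2 * M j ^ 2) +
        K * M J ^ 2 : ℕ) : ℝ) ≤ δ * ((Fintype.card (EE D B) * M J ^ 2 : ℕ) : ℝ)) :
    ValueAtMost δ (inst φ B s M ι y) := by
  refine ⟨inst_two hφ y, fun A C => ?_⟩
  have h1 := inst_sat_le (ι := ι) K hs y J hyJ x hx' A C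
  have h2 := inst_edges_ge (M := M) (ι := ι) hφ y J x hx'
  have h1' : ((univ.filter fun e => inst φ B s M ι y e = true ∧ Satisfies A C e).card : ℝ) ≤
      ((1 + (∑ j ∈ univ.filter (fun j => j < J), Fintype.card (EE D B) * m ^ 2 * M j ^ 2) +
        K * M J ^ 2 : ℕ) : ℝ) := by exact_mod_cast h1
  have h2' : ((Fintype.card (EE D B) * M J ^ 2 : ℕ) : ℝ) ≤
      ((univ.filter fun e => inst φ B s M ι y e = true).card : ℝ) := by exact_mod_cast h2
  have h3 := mul_le_mul_of_nonneg_left h2' hδ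
  linarith

end Pool.Agent.T6.H87.TG
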