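import Pool.Agent.H589R3.DT.Main
import Pool.Agent.T6.H87.TG.Chain
import Pool.Agent.T6.H87.TG.Inst

/-! The lower bound for circuits with free gates, abstract form. -/

set_option linter.unusedSectionVars false
set_option linter.unusedVariables false

open scoped Classical
open Finset

namespace Pool.Agent.T6.H87.TG

open H589DT Pool.Agent.H560R2 Pool.Agent.W969.MC
open H630VC (Prog marked)

theorem ncard_filter {X : Type} [Fintype X] (P : X → Prop) :
    {x | P x}.ncard = (univ.filter P).card := by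
  have : {x | P x} = ((univ.filter P : Finset X) : Set X) := by
    ext x
    simp
  rw [this, Set.ncard_coe_finset]

theorem dichotomy (hHO : S_HO) (hNC : S_NC) {U E Λ A : Type} [Fintype U] [Fintype E] [Fintype Λ]
    [Fintype A] [Nonempty A] (G : CGraph U E Λ) (L M Q : ℕ) (F : Local U Λ (2 * L))
    (hF : ∀ S ρ, F.C S ρ → G.SatOn S ρ) (hL : 2 ≤ L) (hM : 1 ≤ M) (hQ : 1 ≤ Q)
    (h1 : 64 * L * Q ≤ Fintype.card A)
    (h2 : 8 * (Fintype.card U * Fintype.card A * Fintype.card Λ ^ 2 * M ^ 2) ≤ Q ^ 2)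
    (h3 : 2 ^ L * (Fintype.card U * Fintype.card A * Fintype.card Λ + 1) ^ (2 * L) * 8 ≤ 2 ^ M)
    {Inp : Type} (ins : Finset (E × A × A) → (Inp → Bool)) (hi : HostInputs ins (RB Inp))
    (Lr : List ((Inp → Bool) → ℝ)) (Gf : (Inp → Bool) → ℝ) (hLr : RProg (RB Inp) Lr)
    (hG : Gf ∈ RB Inp ∨ Gf ∈ Lr) (hlen : 3 * Lr.length + 1 < 2 ^ L) (τ : ℝ)
    (hr : ({ω : {ω : Smp (U × A) Λ M Q // NoConflict (marked ω)} |
        τ ≤ Gf (ins (hT G (marked ω.1)))}.ncard : ℝ) /
          Nat.card {ω : Smp (U × A) Λ M Q // NoConflict (marked ω)} + 1 / 4 ≤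
      ({x : U → A | τ ≤ Gf (ins (hx G x))}.ncard : ℝ) / Nat.card (U → A)) : False := by
  have : NeZero Q := ⟨by omega⟩
  obtain ⟨l0, hl0, hsub, hlen0⟩ := prog_of_rprog hLr
  obtain ⟨l, hl, hf, hll⟩ : ∃ l, Prog (RB Inp) l ∧ Gf ∈ l ∧ l.length < 2 ^ L := by
    rcases hG with h | h
    · exact ⟨Gf :: l0, Prog.input hl0 h, List.mem_cons_self, by
        simp only [List.length_cons]
        omega⟩
    · exact ⟨l0, hl0, hsub _ h, by omega⟩
  -- conflicts
  have g1 : (univ.filter fun ω : Smp (U × A) Λ M Q => ¬ NoConflict (marked ω)).card * Q ^ 2 ≤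
      Fintype.card U * Fintype.card A * Fintype.card Λ ^ 2 * M ^ 2 *
        Fintype.card (Smp (U × A) Λ M Q) := by
    have g0 := hNC (U × A) Λ M Q hQ
    rw [Fintype.card_prod] at g0
    exact le_of_eq_of_le (congrArg (· * Q ^ 2) (cardFU _ _ _ _ _ _ fun _ => Iff.rfl))
      (g0.trans (le_of_eq (congrArg (Fintype.card U * Fintype.card A * Fintype.card Λ ^ 2 *
        M ^ 2 * ·) (cardFt _ _))))
  have g2 : 8 * (univ.filter fun ω : Smp (U × A) Λ M Q => ¬ NoConflict (marked ω)).card ≤
      Fintype.card (Smp (U × A) Λ M Q) := by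
    generalize Fintype.card (Smp (U × A) Λ M Q) = S at g1 ⊢
    generalize (univ.filter fun ω : Smp (U × A) Λ M Q => ¬ NoConflict (marked ω)).card = bad
      at g1 ⊢
    have g2 : 8 * bad * Q ^ 2 ≤ S * Q ^ 2 := by
      calc 8 * bad * Q ^ 2 = 8 * (bad * Q ^ 2) := by ring
        _ ≤ 8 * (Fintype.card U * Fintype.card A * Fintype.card Λ ^ 2 * M ^ 2 * S) :=
            Nat.mul_le_mul_left _ g1
        _ = (8 * (Fintype.card U * Fintype.card A * Fintype.card Λ ^ 2 * M ^ 2)) * S := by ring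
        _ ≤ Q ^ 2 * S := Nat.mul_le_mul_right _ h2
        _ = _ := by ring
    exact Nat.le_of_mul_le_mul_right g2 (by positivity)
  have hX : 0 < Fintype.card (U → A) := Fintype.card_pos
  have hS : 0 < Fintype.card (Smp (U × A) Λ M Q) := Fintype.card_pos
  rw [Nat.card_eq_fintype_card (α := U → A), ncard_filter (X := U → A)] at hr
  rcases hHO U E Λ A G L M Q F hF (by omega) hM hQ h1 (Inp → Bool) ins (RB Inp) hi l hl Gf hf τ
    with g3 | g3
  · -- few positive tests
    have h4 : (0 : ℝ) ≤ ({ω : {ω : Smp (U × A) Λ M Q // NoConflict (marked ω)} |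
        τ ≤ Gf (ins (hT G (marked ω.1)))}.ncard : ℝ) /
          Nat.card {ω : Smp (U × A) Λ M Q // NoConflict (marked ω)} := by positivity
    have h5 : (1 / 4 : ℝ) ≤ ((univ.filter fun x : U → A => τ ≤ Gf (ins (hx G x))).card : ℝ) /
        Fintype.card (U → A) := by linarith
    rw [le_div_iff₀ (by exact_mod_cast hX)] at h5
    generalize Fintype.card (U → A) = cX at g3 h5 hX
    generalize (univ.filter fun x : U → A => τ ≤ Gf (ins (hx G x))).card = c1 at g3 h5
    generalize l.length = s at g3 hll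
    have h6 : cX ≤ 4 * c1 := by
      have : (cX : ℝ) ≤ 4 * c1 := by linarith
      exact_mod_cast this
    have e1 : (8 : ℕ) ^ L = 2 ^ L * (2 ^ L * 2 ^ L) := by
      rw [← mul_pow, ← mul_pow]
      norm_num
    have e2 : 4 ≤ 2 ^ L := by
      calc 4 = 2 ^ 2 := by norm_num
        _ ≤ 2 ^ L := Nat.pow_le_pow_right (by norm_num) hL
    have e3 : 16 * 2 ^ L ≤ 8 ^ L := by
      rw [e1]
      calc 16 * 2 ^ L = 2 ^ L * (4 * 4) := by ring
        _ ≤ 2 ^ L * (2 ^ L * 2 ^ L) := Nat.mul_le_mul_left _ (Nat.mul_le_mul e2 e2)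
    have h7 : 7 * 8 ^ L * c1 ≤ (28 * s + 4 * 8 ^ L) * c1 := by
      calc 7 * 8 ^ L * c1 ≤ (7 * s + 8 ^ L) * cX := g3
        _ ≤ (7 * s + 8 ^ L) * (4 * c1) := Nat.mul_le_mul_left _ h6
        _ = (28 * s + 4 * 8 ^ L) * c1 := by ring
    have h8 : 7 * 8 ^ L ≤ 28 * s + 4 * 8 ^ L := Nat.le_of_mul_le_mul_right h7 (by omega)
    omega
  · -- most negative tests
    have g4 : 8 * (univ.filter fun ω : Smp (U × A) Λ M Q =>
        Gf (ins (hT G (marked ω))) < τ).card ≤ Fintype.card (Smp (U × A) Λ M Q) := by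
      generalize Fintype.card (Smp (U × A) Λ M Q) = S at g3 ⊢
      generalize (univ.filter fun ω : Smp (U × A) Λ M Q => Gf (ins (hT G (marked ω))) < τ).card
        = c2 at g3 ⊢
      generalize l.length = s at g3 hll
      generalize (Fintype.card U * Fintype.card A * Fintype.card Λ + 1) ^ (2 * L) = W at g3 h3
      have g5 : s * W * 8 ≤ 2 ^ M :=
        le_trans (Nat.mul_le_mul_right _ (Nat.mul_le_mul_right _ hll.le)) h3
      have g6 : 8 * c2 * 2 ^ M ≤ S * 2 ^ M := by
        calc 8 * c2 * 2 ^ M = 8 * (c2 * 2 ^ M) := by ring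
          _ ≤ 8 * (s * (W * S)) := Nat.mul_le_mul_left _ g3
          _ = (s * W * 8) * S := by ring
          _ ≤ 2 ^ M * S := Nat.mul_le_mul_right _ g5
          _ = _ := by ring
      exact Nat.le_of_mul_le_mul_right g6 (by positivity)
    have h4 : ((univ.filter fun x : U → A => τ ≤ Gf (ins (hx G x))).card : ℝ) /
        Fintype.card (U → A) ≤ 1 := by
      rw [div_le_one (by exact_mod_cast hX)]
      exact_mod_cast Finset.card_filter_le _ _
    -- the cardinalities
    have e1 : Nat.card {ω : Smp (U × A) Λ M Q // NoConflict (marked ω)} =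
        (univ.filter fun ω : Smp (U × A) Λ M Q => NoConflict (marked ω)).card := by
      rw [Nat.card_eq_fintype_card, Fintype.card_subtype]
    have e2 : {ω : {ω : Smp (U × A) Λ M Q // NoConflict (marked ω)} |
        τ ≤ Gf (ins (hT G (marked ω.1)))}.ncard =
        (univ.filter fun ω : Smp (U × A) Λ M Q => NoConflict (marked ω) ∧
          τ ≤ Gf (ins (hT G (marked ω)))).card := by
      rw [← Set.ncard_image_of_injective _ Subtype.val_injective]
      have e0 : Subtype.val '' {ω : {ω : Smp (U × A) Λ M Q // NoConflict (marked ω)} |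
          τ ≤ Gf (ins (hT G (marked ω.1)))} =
          {ω | NoConflict (marked ω) ∧ τ ≤ Gf (ins (hT G (marked ω)))} := by
        ext ω
        simp only [Set.mem_image, Set.mem_setOf_eq, Subtype.exists, exists_and_left, exists_prop,
          exists_eq_right_right]
        exact and_comm
      rw [e0]
      exact (ncard_filter _).trans (cardFU _ _ _ _ _ _ fun _ => Iff.rfl)
    have e3 : (univ.filter fun ω : Smp (U × A) Λ M Q => NoConflict (marked ω)).card +
        (univ.filter fun ω : Smp (U × A) Λ M Q => ¬ NoConflict (marked ω)).card =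
        Fintype.card (Smp (U × A) Λ M Q) := by
      rw [card_filter_add_card_filter_not, card_univ]
    have e4 : (univ.filter fun ω : Smp (U × A) Λ M Q => NoConflict (marked ω)).card ≤
        (univ.filter fun ω : Smp (U × A) Λ M Q => NoConflict (marked ω) ∧
          τ ≤ Gf (ins (hT G (marked ω)))).card +
        (univ.filter fun ω : Smp (U × A) Λ M Q => Gf (ins (hT G (marked ω))) < τ).card := by
      refine le_trans (card_le_card ?_) (card_union_le _ _)
      intro ω hω
      rw [mem_union, mem_filter, mem_filter]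
      by_cases h : τ ≤ Gf (ins (hT G (marked ω)))
      · exact Or.inl ⟨mem_univ _, (mem_filter.1 hω).2, h⟩
      · exact Or.inr ⟨mem_univ _, not_le.1 h⟩
    rw [e1, e2] at hr
    generalize Fintype.card (Smp (U × A) Λ M Q) = S at g2 g4 e3 hS
    generalize (univ.filter fun ω : Smp (U × A) Λ M Q => ¬ NoConflict (marked ω)).card = bad
      at g2 e3
    generalize (univ.filter fun ω : Smp (U × A) Λ M Q => Gf (ins (hT G (marked ω))) < τ).card = c2
      at g4 e4
    generalize (univ.filter fun ω : Smp (U × A) Λ M Q => NoConflict (marked ω)).card = b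
      at hr e3 e4
    generalize (univ.filter fun ω : Smp (U × A) Λ M Q => NoConflict (marked ω) ∧
          τ ≤ Gf (ins (hT G (marked ω)))).card = a at hr e4
    have hb : 0 < b := by omega
    have hb' : (0 : ℝ) < b := by exact_mod_cast hb
    have h5 : (a : ℝ) / b ≤ 3 / 4 := by linarith
    rw [div_le_iff₀ hb'] at h5
    have h6 : 4 * a ≤ 3 * b := by
      have : (4 * a : ℝ) ≤ 3 * b := by linarith
      exact_mod_cast this
    omega

/-- the circuit as a circuit of `W969.MC` -/
def toRC {E : Type} (C : Circuit E) : RC E where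
  S := C.s
  T := C.free
  wd := C.w
  a := C.a
  op := C.op
  θ := C.θ
  val := C.val
  o := C.out
  τ := C.τ
  htop := C.earlier
  hmon := C.mono
  hT := C.digital
  hval := C.spec

theorem acceptance_mul {E R : Type} [Fintype R] [Nonempty R] (C : R → Circuit E) (x : E → Bool) :
    ({r : R | (toRC (C r)).acc x}.ncard : ℝ) = acceptance C x * Fintype.card R := by
  unfold acceptance
  have h : (Nat.card R : ℝ) ≠ 0 := by
    rw [Nat.card_eq_fintype_card]
    exact_mod_cast Fintype.card_ne_zero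
  rw [← Nat.card_eq_fintype_card, div_mul_cancel₀ _ h]
  rfl

theorem exists_noConflict (hNC : S_NC) (W Λ : Type) [Fintype W] [Fintype Λ] (M Q : ℕ) (hQ : 1 ≤ Q)
    (h : Fintype.card W * Fintype.card Λ ^ 2 * M ^ 2 < Q ^ 2) :
    ∃ ω : Smp W Λ M Q, NoConflict (marked ω) := by
  have : NeZero Q := ⟨by omega⟩
  by_contra hcon
  push Not at hcon
  have g0 := hNC W Λ M Q hQ
  rw [filter_true_of_mem (fun ω _ => hcon ω), card_univ, mul_comm] at g0
  have hS : 0 < Fintype.card (Smp W Λ M Q) := Fintype.card_pos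
  exact absurd (Nat.le_of_mul_le_mul_right g0 hS) (not_le.2 h)

variable {n D p m N m' : ℕ} [NeZero p] [NeZero m] {φ : Fin n → Fin D → Fin n} {B : Finset (Fin n)}
  {s : Fin n → Fin D → ZMod p} {Mb : Fin m' → ℕ} {ι : Vx n m Mb ↪ Fin N}

theorem core (hHO : S_HO) (hNC : S_NC) (hφ : ∀ w i j, w ∉ B → φ w i = φ w j → i = j)
    (L M Q : ℕ) (F : Local (Fin n ⊕ Fin n) (ZMod p × Fin 2) (2 * L))
    (hF : ∀ S ρ, F.C S ρ → (gameGraph (d := 2) φ B s).SatOn S ρ) (hL : 2 ≤ L) (hM : 1 ≤ M)
    (hQ : 1 ≤ Q) (h1 : 64 * L * Q ≤ m) (h2 : 8 * (2 * n * m * (2 * p) ^ 2 * M ^ 2) ≤ Q ^ 2)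
    (h3 : 2 ^ L * (2 * n * m * (2 * p) + 1) ^ (2 * L) * 8 ≤ 2 ^ M) (δ : ℝ)
    (hno : ∀ (y : Fin m' → Set (EE D B × Fin m × Fin m)) (J : Fin m') (x : Fin n ⊕ Fin n → Fin m),
      (∀ j, J < j → y j = ∅) → y J = (hx (gameGraph (d := 2) φ B s) x : Set _) →
      ValueAtMost δ (inst φ B s Mb ι y))
    {R : Type} [Fintype R] [Nonempty R] (C : R → Circuit (Position N (2 * p)))
    (hfree : ∀ r, 4 * (C r).freedom ≤ m')
    (hacc : ∀ x, (ValueAtMost δ x → 3 / 4 ≤ acceptance C x) ∧
      (ValueOne x → acceptance C x ≤ 1 / 4)) : ∃ r, 2 ^ L ≤ 4 * (C r).size := by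
  by_contra hcon
  push Not at hcon
  have : NeZero Q := ⟨by omega⟩
  have hcardΛ : Fintype.card (ZMod p × Fin 2) = 2 * p := by
    rw [Fintype.card_prod, ZMod.card, Fintype.card_fin, mul_comm]
  have hcardU : Fintype.card (Fin n ⊕ Fin n) = 2 * n := by
    rw [Fintype.card_sum, Fintype.card_fin]; ring
  let Ωn : Type := {ω : Smp ((Fin n ⊕ Fin n) × Fin m) (ZMod p × Fin 2) M Q // NoConflict (marked ω)}
  haveI : Finite (Smp ((Fin n ⊕ Fin n) × Fin m) (ZMod p × Fin 2) M Q) := by
    unfold Smp H630VC.Om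
    infer_instance
  haveI : Finite Ωn := Subtype.finite
  haveI : Fintype Ωn := Fintype.ofFinite Ωn
  haveI : Nonempty Ωn := by
    obtain ⟨ω, hω⟩ := exists_noConflict hNC ((Fin n ⊕ Fin n) × Fin m) (ZMod p × Fin 2) M Q hQ (by
      rw [Fintype.card_prod, hcardU, hcardΛ, Fintype.card_fin]
      have : 0 < Q ^ 2 := by positivity
      omega)
    exact ⟨⟨ω, hω⟩⟩
  have hmain := rand_core (fun r => toRC (C r)) (inst φ B s Mb ι) inst_mono
    (fun ω : Ωn => ((hT (gameGraph (d := 2) φ B s) (marked ω.1) : Finset _) :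
      Set (EE D B × Fin m × Fin m)))
    (fun x : Fin n ⊕ Fin n → Fin m => ((hx (gameGraph (d := 2) φ B s) x : Finset _) :
      Set (EE D B × Fin m × Fin m))) (1 / 4) (1 / 2) (by norm_num) ?_ ?_ ?_
  · obtain ⟨r, y, J, Lr, Gf, hfil, hLr, hG, hlen, hr⟩ := hmain
    have hsz : (toRC (C r)).size = (C r).size := rfl
    have hs1 : 1 ≤ (C r).size := by
      have := (C r).out.pos
      unfold Circuit.size
      omega
    refine dichotomy (A := Fin m) hHO hNC (gameGraph (d := 2) φ B s) L M Q F hF hL hM hQ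
      (by rw [Fintype.card_fin]; exact h1)
      (by rw [hcardU, Fintype.card_fin, hcardΛ]; exact h2)
      (by rw [hcardU, Fintype.card_fin, hcardΛ]; exact h3)
      (fun H => inst φ B s Mb ι (Function.update y J (H : Set (EE D B × Fin m × Fin m))))
      (inst_host hφ y J) Lr Gf hLr hG ?_ (toRC (C r)).τ ?_
    · have := hcon r
      rw [hsz] at hlen
      omega
    · rw [Nat.card_eq_fintype_card, Nat.card_eq_fintype_card]
      have h5 : (1 / 2 : ℝ) / 2 = 1 / 4 := by norm_num
      rw [h5] at hr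
      convert hr using 2
  · intro y J x hy
    rw [acceptance_mul]
    refine mul_le_mul_of_nonneg_right ?_ (Nat.cast_nonneg _)
    have h5 := (hacc _).1 (hno (Function.update y J
      ((hx (gameGraph (d := 2) φ B s) x : Finset _) : Set (EE D B × Fin m × Fin m))) J x
      (fun j hj => by rw [Function.update_of_ne hj.ne']; exact hy.2 j hj.le)
      (Function.update_self _ _ _))
    linarith
  · intro y hy
    rw [acceptance_mul]
    refine mul_le_mul_of_nonneg_right ?_ (Nat.cast_nonneg _)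
    refine (hacc _).2 ?_
    have h5 : ∀ j, ∃ T : Finset (((Fin n ⊕ Fin n) × Fin m) × (ZMod p × Fin 2)), NoConflict T ∧
        ∀ c ∈ y j, c ∈ hT (gameGraph (d := 2) φ B s) T := by
      intro j
      rcases hy j with h | ⟨ω, h⟩
      · refine ⟨∅, fun _ _ _ h => absurd h (notMem_empty _), fun c hc => ?_⟩
        rw [h] at hc
        exact absurd hc (Set.notMem_empty _)
      · refine ⟨marked ω.1, ω.2, fun c hc => ?_⟩
        rw [h] at hc
        exact hc
    choose T hT0 hT1 using h5
    exact inst_yes hφ y T hT0 hT1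
  · intro r
    have h5 := hfree r
    have h6 : (4 : ℝ) * ((C r).freedom : ℝ) ≤ m' := by exact_mod_cast h5
    show ((C r).freedom : ℝ) ≤ _
    linarith

end Pool.Agent.T6.H87.TG
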