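import Pool.Agent.T6.H87.TG.Core

/-! Circuits with few free gates for 2-to-1 games: the choice of the parameters. -/

set_option linter.unusedSectionVars false
set_option linter.unusedVariables false

open scoped Classical
open Finset

namespace Pool.Agent.T6.H87.TG

open H589DT Pool.Agent.H560R2 Pool.Agent.W969.MC

theorem geom_le (X m : ℕ) (hX : 2 ≤ X) : X * ∑ j ∈ range m, X ^ j ≤ 2 * X ^ m := by
  induction m with
  | zero => simp
  | succ m ih =>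
    rw [sum_range_succ, mul_add]
    have h1 : 2 * X ^ m ≤ X ^ (m + 1) := by
      rw [pow_succ, mul_comm (X ^ m)]
      exact Nat.mul_le_mul_right _ hX
    have h2 : X * X ^ m = X ^ (m + 1) := by rw [pow_succ, mul_comm]
    omega

theorem sum_fin_lt {m' : ℕ} (f : ℕ → ℕ) (J : Fin m') :
    ∑ j ∈ univ.filter (fun j => j < J), f j ≤ ∑ j ∈ range J, f j := by
  have h1 : ∑ j ∈ univ.filter (fun j => j < J), f j =
      ∑ j ∈ (univ.filter (fun j => j < J)).map Fin.valEmbedding, f j := by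
    rw [sum_map]
    rfl
  rw [h1]
  refine sum_le_sum_of_subset ?_
  intro j hj
  obtain ⟨i, hi, rfl⟩ := mem_map.1 hj
  exact mem_range.2 (mem_filter.1 hi).2

theorem few_L (δ : ℝ) (hδ : 0 < δ) : ∃ q L1 : ℕ, 1 ≤ q ∧ ∀ L : ℕ, L1 ≤ L → ∀ F : ℕ, 1 ≤ F → ∀ N : ℕ,
    L ^ (44 * F + 3) ≤ N → ∀ (R : Type) [Fintype R] [Nonempty R] (C : R → Circuit (Position N q)),
    (∀ r, (C r).freedom ≤ F) →
    (∀ x, (ValueAtMost δ x → 3 / 4 ≤ acceptance C x) ∧
      (ValueOne x → acceptance C x ≤ 1 / 4)) → ∃ r, 2 ^ L ≤ 4 * (C r).size := by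
  obtain ⟨p, D, hp, hkp, hDp, hD⟩ := choice_p 2 (Nat.ceil (8 / δ)) le_rfl
  set k := Nat.ceil (8 / δ) with hk
  have hp1 : 1 ≤ p := hp.one_lt.le
  have : NeZero p := ⟨hp.pos.ne'⟩
  set r := 2 * (2 * p) + 4 with hr
  set h := 3 * r with hh
  have hD1 : 1 ≤ D := by
    by_contra h0
    have : D = 0 := by omega
    rw [this, pow_zero] at hD
    have : 1 ≤ 2 * p ^ 2 := Nat.mul_pos (by omega) (pow_pos hp.pos 2)
    omega
  obtain ⟨n0, hn0⟩ := t_EX D (2 * h) r (by omega)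
  obtain ⟨L0, hL0⟩ := pow_le_two_pow
  refine ⟨2 * p, n0 + L0 + 64 * (h + 1) ^ 2 + 1024 * (2 * p) ^ 2 + Nat.ceil (32768 / δ) + 129,
    by omega, ?_⟩
  intro L hL F hF1 N hN R _ _ C hfree hacc
  have hL2 : 129 ≤ L := by omega
  -- the graph
  obtain ⟨n, hn⟩ : ∃ n, n = L ^ 3 := ⟨_, rfl⟩
  obtain ⟨M, hM⟩ : ∃ M, M = L ^ 2 := ⟨_, rfl⟩
  obtain ⟨Q, hQ⟩ : ∃ Q, Q = L ^ 9 := ⟨_, rfl⟩
  obtain ⟨m, hm⟩ : ∃ m, m = 64 * L ^ 10 := ⟨_, rfl⟩
  have hLn : L ≤ n := by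
    rw [hn]
    calc L = L ^ 1 := (pow_one L).symm
      _ ≤ L ^ 3 := Nat.pow_le_pow_right (by omega) (by norm_num)
  obtain ⟨φ, B, hB, hsp, hgi⟩ := hn0 n (by omega)
  have hφ := phi_inj (fun S hS hS2 => hgi S hS (hS2.trans (by omega)))
  -- the number of edges and `K`
  have hEE := card_EE (D := D) B
  have hE2 : n * D ≤ 2 * Fintype.card (EE D B) := by
    rw [hEE]
    calc n * D ≤ (2 * (n - B.card)) * D := Nat.mul_le_mul_right _ (by omega)
      _ = _ := by ring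
  set EC := Fintype.card (EE D B) with hEC
  set K := Nat.ceil (δ * EC / 2) with hK
  have hLr : (32768 / δ : ℝ) ≤ L := (Nat.le_ceil _).trans (Nat.cast_le.2 (by omega))
  have hECr : (8 : ℝ) ≤ δ * EC := by
    have h2 : n ≤ 2 * EC := (Nat.le_mul_of_pos_right n hD1).trans hE2
    have h3 : (L : ℝ) ≤ 2 * EC := by exact_mod_cast hLn.trans h2
    have h4 : (32768 : ℝ) ≤ δ * (2 * EC) := by
      rw [div_le_iff₀ hδ] at hLr
      nlinarith
    linarith
  have hKle : (K : ℝ) ≤ δ * EC / 2 + δ * EC / 8 := by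
    have h1 : (K : ℝ) < δ * EC / 2 + 1 := Nat.ceil_lt_add_one (by positivity)
    linarith
  have hpK : (2 * p ^ 2) ^ n * 2 ^ (D * n) < p ^ K := by
    have h1 : 2 * (D * n) ≤ k * K := by
      have h2 : (8 / δ : ℝ) ≤ k := Nat.le_ceil _
      have h3 : δ * EC / 2 ≤ (K : ℝ) := Nat.le_ceil _
      have h4 : (4 * EC : ℝ) ≤ k * K := by
        calc (4 * EC : ℝ) = (8 / δ) * (δ * EC / 2) := by field_simp; ring
          _ ≤ k * K := mul_le_mul h2 h3 (by positivity) (by positivity)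
      have h5 : (4 * EC : ℕ) ≤ k * K := by exact_mod_cast h4
      calc 2 * (D * n) = 2 * (n * D) := by ring
        _ ≤ 2 * (2 * EC) := Nat.mul_le_mul_left _ hE2
        _ = 4 * EC := by ring
        _ ≤ _ := h5
    have hn1 : n ≠ 0 := by omega
    calc (2 * p ^ 2) ^ n * 2 ^ (D * n) < (2 ^ D) ^ n * 2 ^ (D * n) := by
          apply Nat.mul_lt_mul_of_pos_right _ (by positivity)
          exact Nat.pow_lt_pow_left hD hn1
      _ = 2 ^ (2 * (D * n)) := by rw [← pow_mul, two_mul, pow_add]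
      _ ≤ 2 ^ (k * K) := Nat.pow_le_pow_right (by norm_num) h1
      _ = (2 ^ k) ^ K := by rw [pow_mul]
      _ ≤ p ^ K := Nat.pow_le_pow_left hkp K
  obtain ⟨s, hs⟩ := t_SH n D p 2 K hp1 φ B hpK
  -- local consistency
  set G := gameGraph (d := 2) φ B s with hG
  have hGgirth : G.Girth r := fun S hS hSr => lt_of_le_of_lt (ein_le φ B s S) (hgi S hS hSr)
  have hGsparse : G.Sparse (2 * h) (8 * (h + 1) * L) := by
    intro S hS
    refine (ein_le φ B s S).trans (hsp S ?_)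
    calc S.card ^ 2 ≤ (8 * (h + 1) * L) ^ 2 := Nat.pow_le_pow_left hS 2
      _ = (64 * (h + 1) ^ 2) * L ^ 2 := by ring
      _ ≤ L * L ^ 2 := Nat.mul_le_mul_right _ (by omega)
      _ = n := by rw [hn]; ring
  obtain ⟨Fc, hFc⟩ := lo_all _ _ _ G r h (8 * (h + 1) * L) (2 * L) (by omega) le_rfl
    (gameGraph_surj (by omega) φ B s) (t_MX n D p 2 hp hDp le_rfl φ B s) hGgirth hGsparse
    (by ring_nf; exact le_rfl)
  have hmpos : 0 < m := by rw [hm]; positivity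
  have : NeZero m := ⟨hmpos.ne'⟩
  have hQ1 : 1 ≤ Q := by rw [hQ]; exact Nat.one_le_pow _ _ (by omega)
  have hM1 : 1 ≤ M := by rw [hM]; exact Nat.one_le_pow _ _ (by omega)
  have hqL : 1024 * (2 * p) ^ 2 ≤ L := by omega
  -- the blow-ups
  let Mb : Fin (4 * F) → ℕ := fun j => (L ^ 11) ^ (j : ℕ)
  have hL11 : 2 ≤ L ^ 11 := le_trans (by omega) (Nat.le_self_pow (by norm_num) L)
  have hcardV : Fintype.card (Vx n m Mb) ≤ Fintype.card (Fin N) := by
    rw [Fintype.card_option, Fintype.card_sigma, Fintype.card_fin]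
    have h1 : ∀ j : Fin (4 * F), Fintype.card (Fin n × Fin m × Fin (Mb j)) =
        n * m * (L ^ 11) ^ (j : ℕ) := by
      intro j
      rw [Fintype.card_prod, Fintype.card_prod, Fintype.card_fin, Fintype.card_fin,
        Fintype.card_fin, mul_assoc]
    rw [sum_congr rfl fun j _ => h1 j, ← mul_sum, Fin.sum_univ_eq_sum_range (fun j => (L ^ 11) ^ j)]
    have h2 := geom_le (L ^ 11) (4 * F) hL11
    calc n * m * ∑ j ∈ range (4 * F), (L ^ 11) ^ j + 1
        = 64 * L ^ 2 * (L ^ 11 * ∑ j ∈ range (4 * F), (L ^ 11) ^ j) + 1 := by rw [hn, hm]; ring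
      _ ≤ 64 * L ^ 2 * (2 * (L ^ 11) ^ (4 * F)) + 1 * (L ^ 2 * (L ^ 11) ^ (4 * F)) :=
          Nat.add_le_add (Nat.mul_le_mul_left _ h2)
            (by rw [one_mul]; exact Nat.succ_le_of_lt (by positivity))
      _ = 129 * (L ^ 2 * (L ^ 11) ^ (4 * F)) := by ring
      _ ≤ L * (L ^ 2 * (L ^ 11) ^ (4 * F)) := Nat.mul_le_mul_right _ hL2
      _ = L ^ (44 * F + 3) := by rw [← pow_mul]; ring
      _ ≤ N := hN
  obtain ⟨ι⟩ := Function.Embedding.nonempty_of_card_le hcardV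
  refine core ho_all t_NC hφ L M Q Fc hFc (by omega) hM1 hQ1 ?_ ?_ ?_ δ ?_ (Mb := Mb) (ι := ι) C
    (fun r => Nat.mul_le_mul_left _ (hfree r)) hacc
  · rw [hm, hQ]
    apply le_of_eq
    ring
  · calc 8 * (2 * n * m * (2 * p) ^ 2 * M ^ 2) = (1024 * (2 * p) ^ 2) * L ^ 17 := by
          rw [hn, hm, hM]; ring
      _ ≤ L * L ^ 17 := Nat.mul_le_mul_right _ hqL
      _ = Q ^ 2 := by rw [hQ]; ring
  · exact num3 L (2 * p) n m M (by omega) (by omega) hqL hn hm hM (hL0 L (by omega))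
  · intro y J x hyJ hx'
    refine inst_no hφ K hs δ hδ.le y J hyJ x hx' ?_
    -- the numbers
    have h1 : ∑ j ∈ univ.filter (fun j => j < J), EC * m ^ 2 * Mb j ^ 2 ≤
        EC * m ^ 2 * ∑ j ∈ range (J : ℕ), (L ^ 22) ^ j := by
      rw [mul_sum]
      refine le_trans (le_of_eq ?_) (sum_fin_lt (fun j => EC * m ^ 2 * (L ^ 22) ^ j) J)
      refine sum_congr rfl fun j _ => ?_
      show EC * m ^ 2 * ((L ^ 11) ^ (j : ℕ)) ^ 2 = EC * m ^ 2 * (L ^ 22) ^ (j : ℕ)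
      congr 1
      rw [← pow_mul, ← pow_mul, ← pow_mul]
      congr 1
      ring
    have h2 := geom_le (L ^ 22) J (le_trans (by omega) (Nat.le_self_pow (by norm_num) L))
    have h3 : L ^ 2 * ∑ j ∈ univ.filter (fun j => j < J), EC * m ^ 2 * Mb j ^ 2 ≤
        8192 * EC * (L ^ 22) ^ (J : ℕ) := by
      calc L ^ 2 * ∑ j ∈ univ.filter (fun j => j < J), EC * m ^ 2 * Mb j ^ 2
          ≤ L ^ 2 * (EC * m ^ 2 * ∑ j ∈ range (J : ℕ), (L ^ 22) ^ j) := Nat.mul_le_mul_left _ h1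
        _ = 4096 * EC * (L ^ 22 * ∑ j ∈ range (J : ℕ), (L ^ 22) ^ j) := by rw [hm]; ring
        _ ≤ 4096 * EC * (2 * (L ^ 22) ^ (J : ℕ)) := Nat.mul_le_mul_left _ h2
        _ = _ := by ring
    have h4 : Mb J ^ 2 = (L ^ 22) ^ (J : ℕ) := by
      show ((L ^ 11) ^ (J : ℕ)) ^ 2 = (L ^ 22) ^ (J : ℕ)
      rw [← pow_mul, ← pow_mul, ← pow_mul]
      congr 1
      ring
    rw [h4]
    have hXpos : 1 ≤ (L ^ 22) ^ (J : ℕ) := Nat.one_le_pow _ _ (by positivity)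
    generalize (L ^ 22) ^ (J : ℕ) = X at h3 hXpos ⊢
    generalize ∑ j ∈ univ.filter (fun j => j < J), EC * m ^ 2 * Mb j ^ 2 = S at h3 ⊢
    have hXr : (1 : ℝ) ≤ X := by exact_mod_cast hXpos
    have h5 : (L : ℝ) ^ 2 * S ≤ 8192 * EC * X := by exact_mod_cast h3
    have h6 : (32768 : ℝ) ≤ δ * L ^ 2 := by
      rw [div_le_iff₀ hδ] at hLr
      have hL1r : (1 : ℝ) ≤ L := by
        have : (129 : ℝ) ≤ L := by exact_mod_cast hL2
        linarith
      calc (32768 : ℝ) ≤ L * δ := hLr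
        _ ≤ (L * L) * δ := mul_le_mul_of_nonneg_right (by nlinarith) hδ.le
        _ = _ := by ring
    have h7 : (4 : ℝ) * S ≤ δ * (EC * X) := by
      have hSn : (0 : ℝ) ≤ S := Nat.cast_nonneg _
      have h8 : (32768 : ℝ) * S ≤ δ * L ^ 2 * S := mul_le_mul_of_nonneg_right h6 hSn
      have h9 : δ * L ^ 2 * S ≤ δ * (8192 * EC * X) := by
        calc δ * L ^ 2 * S = δ * (L ^ 2 * S) := by ring
          _ ≤ _ := mul_le_mul_of_nonneg_left h5 hδ.le
      nlinarith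
    have h8 : (8 : ℝ) ≤ δ * (EC * X) := by
      calc (8 : ℝ) ≤ δ * EC := hECr
        _ = δ * (EC * 1) := by ring
        _ ≤ δ * (EC * X) := mul_le_mul_of_nonneg_left
            (mul_le_mul_of_nonneg_left hXr (Nat.cast_nonneg _)) hδ.le
    have h9 : (K : ℝ) * X ≤ δ * (EC * X) / 2 + δ * (EC * X) / 8 := by
      calc (K : ℝ) * X ≤ (δ * EC / 2 + δ * EC / 8) * X :=
            mul_le_mul_of_nonneg_right hKle (by linarith)
        _ = _ := by ring
    push_cast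
    linarith

/-- Randomised circuits with few free gates that solve 2-to-1 games with perfect completeness have
large size. -/
theorem few_free (δ : ℝ) (hδ : 0 < δ) : ∃ q c : ℕ, 1 ≤ q ∧ ∀ F : ℕ, 1 ≤ F → ∀ N : ℕ,
    c ^ F ≤ N → ∀ (R : Type) [Fintype R] [Nonempty R] (C : R → Circuit (Position N q)),
    (∀ r, (C r).freedom ≤ F) →
    (∀ x, (ValueAtMost δ x → 3 / 4 ≤ acceptance C x) ∧
      (ValueOne x → acceptance C x ≤ 1 / 4)) →
    ∃ r, (2 : ℝ) ^ ((N : ℝ) ^ (1 / (48 * (F : ℝ)))) ≤ (C r).size := by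
  obtain ⟨q, L1, hq, hmain⟩ := few_L δ hδ
  refine ⟨q, (max L1 (2 ^ 47 + 2)) ^ 47, hq, fun F hF N hN R _ _ C hfree hacc => ?_⟩
  set L' := max L1 (2 ^ 47 + 2) with hL'
  have hL'1 : 2 ^ 47 + 2 ≤ L' := le_max_right _ _
  have h47 : ∀ L : ℕ, 1 ≤ L → L ^ (44 * F + 3) ≤ (L ^ 47) ^ F := by
    intro L hL
    rw [← pow_mul]
    exact Nat.pow_le_pow_right hL (by omega)
  have hself : ∀ L : ℕ, L ≤ L ^ (44 * F + 3) := fun L => Nat.le_self_pow (by omega) L
  have hPL' : L' ^ (44 * F + 3) ≤ N := (h47 L' (by omega)).trans hN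
  set L := Nat.findGreatest (fun L => L ^ (44 * F + 3) ≤ N) N with hLdef
  have hle : L' ≤ L := Nat.le_findGreatest ((hself L').trans hPL') hPL'
  have hPL : L ^ (44 * F + 3) ≤ N :=
    Nat.findGreatest_spec (P := fun L => L ^ (44 * F + 3) ≤ N) (m := L')
      ((hself L').trans hPL') hPL'
  have hnot : N < (L + 1) ^ (44 * F + 3) := by
    by_contra h
    have h1 : (L + 1) ^ (44 * F + 3) ≤ N := not_lt.1 h
    have h2 : L + 1 ≤ L := by
      rw [hLdef]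
      exact Nat.le_findGreatest ((hself _).trans h1) h1
    omega
  obtain ⟨r, hr⟩ := hmain L ((le_max_left _ _).trans hle) F hF N hPL R C hfree hacc
  refine ⟨r, ?_⟩
  obtain ⟨a, ha⟩ : ∃ a, L = a + 2 := ⟨L - 2, by omega⟩
  have ha47 : 2 ^ 47 ≤ a := by omega
  have hNa : N ≤ a ^ (48 * F) := by
    calc N ≤ (L + 1) ^ (44 * F + 3) := hnot.le
      _ ≤ ((L + 1) ^ 47) ^ F := h47 (L + 1) (by omega)
      _ ≤ (a ^ 48) ^ F := by
          refine Nat.pow_le_pow_left ?_ F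
          calc (L + 1) ^ 47 ≤ (2 * a) ^ 47 := Nat.pow_le_pow_left (by omega) 47
            _ = 2 ^ 47 * a ^ 47 := mul_pow _ _ _
            _ ≤ a * a ^ 47 := Nat.mul_le_mul_right _ ha47
            _ = a ^ 48 := by ring
      _ = a ^ (48 * F) := by rw [← pow_mul]
  have hroot : (N : ℝ) ^ (1 / (48 * (F : ℝ))) ≤ a := by
    have h1 : (N : ℝ) ≤ (a : ℝ) ^ (48 * F) := by exact_mod_cast hNa
    have hFr : (0 : ℝ) < F := by exact_mod_cast hF
    have h2 : (N : ℝ) ^ (1 / (48 * (F : ℝ))) ≤ ((a : ℝ) ^ (48 * F)) ^ (1 / (48 * (F : ℝ))) :=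
      Real.rpow_le_rpow (Nat.cast_nonneg _) h1 (by positivity)
    have h3 : ((a : ℝ) ^ (48 * F)) ^ (1 / (48 * (F : ℝ))) = a := by
      rw [← Real.rpow_natCast, ← Real.rpow_mul (Nat.cast_nonneg _)]
      push_cast
      rw [mul_one_div_cancel (by positivity), Real.rpow_one]
    exact h2.trans h3.le
  have hsz : 2 ^ a ≤ (C r).size := by
    have h1 : 4 * 2 ^ a ≤ 4 * (C r).size := by
      calc 4 * 2 ^ a = 2 ^ L := by rw [ha, pow_add]; ring
        _ ≤ _ := hr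
    omega
  calc (2 : ℝ) ^ ((N : ℝ) ^ (1 / (48 * (F : ℝ)))) ≤ (2 : ℝ) ^ (a : ℝ) :=
        Real.rpow_le_rpow_of_exponent_le (by norm_num) hroot
    _ = ((2 ^ a : ℕ) : ℝ) := by rw [Real.rpow_natCast]; push_cast; rfl
    _ ≤ _ := by exact_mod_cast hsz

end Pool.Agent.T6.H87.TG
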